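import Pool.Agent.H36.ENR.Stmts2

/-!
# Board enr (MP_d15c96_al), row CYT
-/

set_option autoImplicit false

namespace Pool.ENR

theorem cyt_thm (h1 : FXCStmt) : CYTStmt := by
  intro T _ _ p a N σ s n hp hp2 ha hs hdvd hn hσ
  obtain ⟨s', n', lam, be, h2, h3, h4, h5, h6⟩ := h1 T p a N σ s n hp hp2 ha hs hdvd hn hσ
  obtain ⟨q, hq⟩ : Odd (p ^ a) := (hp.odd_of_ne_two hp2).pow
  have hinv : s'⁻¹ = s' ^ (p ^ a - 1) := by
    rw [inv_eq_iff_mul_eq_one, ← pow_succ', hq, Nat.add_sub_cancel, ← hq, ← h2, pow_orderOf_eq_one]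
  have hx : s' ^ (2 * ((q + 1) * (1 + 2 * q * be)) + be) = s' := by
    have e : 2 * ((q + 1) * (1 + 2 * q * be)) + be = p ^ a * (1 + p ^ a * be) + 1 := by
      rw [hq]; ring
    rw [e, pow_succ, pow_mul, ← h2, pow_orderOf_eq_one, one_pow, one_mul]
  obtain ⟨x, hxd⟩ : ∃ x : ℕ, x = (q + 1) * (1 + 2 * q * be) := ⟨_, rfl⟩
  rw [← hxd] at hx
  refine ⟨s' ^ x, s', n', lam, p ^ a - 1, 1, h2, ?_, h5, ?_, ?_, ?_, ?_⟩
  · rw [MulAut.mul_apply, MulAut.conj_apply, h4, ← pow_add, add_comm, pow_add, mul_inv_cancel_right]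
  · rw [h3, hinv]
  · intro hc
    have h7 : p ∣ p ^ a := dvd_pow_self p (by omega)
    have h8 : p ^ a - 1 + 1 ≡ 1 + 1 [MOD p] := Nat.ModEq.add_right 1 hc
    rw [Nat.sub_add_cancel (Nat.one_le_pow _ _ hp.pos)] at h8
    have h9 : (0 : ℕ) ≡ 1 + 1 [MOD p] := ((Nat.modEq_zero_iff_dvd.2 h7).symm).trans h8
    have h10 : p ∣ 2 := (Nat.modEq_zero_iff_dvd.1 h9.symm)
    exact hp2 ((Nat.prime_dvd_prime_iff_eq hp Nat.prime_two).1 h10)
  · rw [MulAut.mul_apply, MulAut.conj_apply, h6, pow_one]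
    have h7 : n' * (s' ^ x)⁻¹ = s' ^ x * n' := by
      have h8 : n' * s' ^ x * n'⁻¹ = (s' ^ x)⁻¹ := by
        rw [← conj_pow, h3, inv_pow]
      have h9 : n' * s' ^ x = (s' ^ x)⁻¹ * n' := by
        rw [← h8, inv_mul_cancel_right]
      rw [mul_inv_eq_iff_eq_mul, mul_assoc, h9, mul_inv_cancel_left]
    calc s' ^ x * (s' ^ be * n') * (s' ^ x)⁻¹ = s' ^ x * s' ^ be * (n' * (s' ^ x)⁻¹) := by
          simp only [mul_assoc]
      _ = s' ^ (2 * x + be) * n' := by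
          rw [h7, ← mul_assoc]
          congr 1
          rw [← pow_add, ← pow_add]
          congr 1
          ring
      _ = s' * n' := by rw [hx]
  · exact hp.one_lt.ne' ∘ Nat.dvd_one.1

end Pool.ENR
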