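import Pool.Agent.H29.ENR.Stmts9

/-!
Board enr (MP_d15c96_al): row GSX.
-/

set_option autoImplicit false

namespace Pool.ENR

open Pool.Agent.H81.ENG

theorem gsx_inv {T : Type} [Group T] [Finite T] (σ : MulAut T) (Γ : Subgroup T)
    (h : ∀ x ∈ Γ, σ x ∈ Γ) : ∀ x, x ∈ Γ ↔ σ x ∈ Γ := by
  intro x
  constructor
  · exact h x
  · intro hx
    have hle : Γ.map (σ : T ≃* T).toMonoidHom ≤ Γ := by
      rintro _ ⟨y, hy, rfl⟩
      exact h y hy
    have hcard : Nat.card Γ ≤ Nat.card (Γ.map (σ : T ≃* T).toMonoidHom) := by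
      have e := Γ.equivMapOfInjective (σ : T ≃* T).toMonoidHom (MulEquiv.injective _)
      exact (Nat.card_congr e.toEquiv).le
    have heq := Subgroup.eq_of_le_of_card_ge hle hcard
    rw [← heq] at hx
    obtain ⟨y, hy, hyx⟩ := hx
    have : y = x := σ.injective hyx
    exact this ▸ hy

theorem gsx_thm (h1 : QTLStmt) (h2 : GSMStmt) : GSXStmt := by
  intro T _ _ p c σ hp hp2 hc hG
  obtain ⟨t, A, D, n, k, lam, hA, hDA, hcomm, hlam, hDσ, hpow, hAn, hDn, hnk, hpk, hσn, x₀, hx₀,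
    hx₀'⟩ := hG
  obtain ⟨σ', hσ'⟩ : ∃ σ' : MulAut T, σ' = MulAut.conj t * σ := ⟨_, rfl⟩
  rw [← hσ'] at hDσ hpow hσn
  let Γ : Subgroup T := A ⊔ Subgroup.zpowers n
  have hAΓ : A ≤ Γ := le_sup_left
  have hnΓ : n ∈ Γ := (le_sup_right : Subgroup.zpowers n ≤ Γ) (Subgroup.mem_zpowers n)
  let NN : Subgroup T :=
    { carrier := {g | ∀ x, x ∈ D ↔ g * x * g⁻¹ ∈ D}
      one_mem' := fun x => by simp
      mul_mem' := fun {a b} ha hb x => by
        rw [hb x, ha (b * x * b⁻¹)]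
        simp only [mul_assoc, mul_inv_rev]
      inv_mem' := fun {a} ha x => by
        rw [ha (a⁻¹ * x * a⁻¹⁻¹)]
        simp [mul_assoc] }
  have hΓN : Γ ≤ NN := by
    refine sup_le ?_ ?_
    · intro a ha x
      constructor
      · intro hx
        have h3 := D.mul_mem (hcomm a ha x (hDA hx)) hx
        rwa [inv_mul_cancel_right] at h3
      · intro hx
        have h3 := D.mul_mem (hcomm a⁻¹ (A.inv_mem ha) (a * x * a⁻¹) (hDA hx)) hx
        rw [inv_mul_cancel_right] at h3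
        have e : a⁻¹ * (a * x * a⁻¹) * a⁻¹⁻¹ = x := by group
        rwa [e] at h3
    · rw [Subgroup.zpowers_le]
      exact hDn
  have hσΓ : ∀ x ∈ Γ, σ' x ∈ Γ := by
    have hle : Γ ≤ Γ.comap (σ' : T ≃* T).toMonoidHom := by
      refine sup_le ?_ ?_
      · intro x hx
        change σ' x ∈ Γ
        have h3 := Γ.mul_mem (hAΓ (hDA (hpow x hx))) (hAΓ (A.pow_mem hx lam))
        rwa [inv_mul_cancel_right] at h3
      · rw [Subgroup.zpowers_le]
        change σ' n ∈ Γ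
        have h3 := Γ.mul_mem (hAΓ hσn) hnΓ
        rwa [inv_mul_cancel_right] at h3
    exact fun x hx => hle hx
  have hΓ : ∀ x, x ∈ Γ ↔ σ' x ∈ Γ := gsx_inv σ' Γ hσΓ
  let K : Subgroup Γ := D.subgroupOf Γ
  have hKmem : ∀ x : Γ, x ∈ K ↔ (x : T) ∈ D := fun x => Subgroup.mem_subgroupOf
  have hK : K.Normal := by
    refine ⟨fun a ha g => ?_⟩
    rw [hKmem] at ha ⊢
    exact (hΓN g.2 a).1 ha
  have hmap : K.map (restr σ' Γ hΓ).toMonoidHom = K := by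
    apply le_antisymm
    · rintro _ ⟨y, hy, rfl⟩
      rw [hKmem]
      exact (hDσ y).1 ((hKmem y).1 hy)
    · intro y hy
      have hy' := (hKmem y).1 hy
      refine ⟨(restr σ' Γ hΓ)⁻¹ y, ?_, MulAut.apply_inv_self _ _ _⟩
      refine (hKmem _).2 ?_
      rw [restr_inv_apply, hDσ, MulAut.apply_inv_self]
      exact hy'
  let τ : MulAut (Γ ⧸ K) := QuotientGroup.congr K K (restr σ' Γ hΓ) hmap
  let π : Γ →* Γ ⧸ K := QuotientGroup.mk' K
  have hπ : Function.Surjective π := QuotientGroup.mk'_surjective K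
  have hτ : ∀ x : Γ, π ⟨σ' x, (hΓ x).1 x.2⟩ = τ (π x) := fun x => rfl
  have hπ1 : ∀ x y : Γ, (x : T) * (y : T)⁻¹ ∈ D → π x = π y := by
    intro x y h
    rw [← mul_inv_eq_one, ← map_inv, ← map_mul]
    exact (QuotientGroup.eq_one_iff _).2 ((hKmem _).2 h)
  have hπ2 : ∀ x y : Γ, π x = π y → (x : T) * (y : T)⁻¹ ∈ D := by
    intro x y h
    rw [← mul_inv_eq_one, ← map_inv, ← map_mul] at h
    exact (hKmem _).1 ((QuotientGroup.eq_one_iff _).1 h)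
  have hgal : GalM p c τ := by
    refine ⟨(A.subgroupOf Γ).map π, π ⟨n, hnΓ⟩, k, lam, (hA.comap_subtype).map π, ?_, hlam, ?_, ?_,
      ?_, hpk, ?_, ?_⟩
    · rintro _ ⟨a, ha, rfl⟩ _ ⟨b, hb, rfl⟩
      rw [← map_mul, ← map_mul]
      apply hπ1
      have h3 := hcomm a ha b hb
      have e : ((a * b : Γ) : T) * ((b * a : Γ) : T)⁻¹ = (a : T) * b * (a : T)⁻¹ * (b : T)⁻¹ := by
        rw [Subgroup.coe_mul, Subgroup.coe_mul]
        group
      rwa [e]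
    · rintro _ ⟨a, ha, rfl⟩
      rw [← hτ, ← map_pow]
      apply hπ1
      exact hpow a ha
    · intro x
      obtain ⟨g, rfl⟩ := hπ x
      constructor
      · rintro ⟨a, ha, hag⟩
        refine ⟨⟨n, hnΓ⟩ * a * ⟨n, hnΓ⟩⁻¹, (hAn a).1 ha, ?_⟩
        rw [map_mul, map_mul, map_inv, hag]
      · rintro ⟨a, ha, hag⟩
        refine ⟨⟨n, hnΓ⟩⁻¹ * a * ⟨n, hnΓ⟩, ?_, ?_⟩
        · change n⁻¹ * (a : T) * n ∈ A
          rw [hAn]
          have e : n * (n⁻¹ * (a : T) * n) * n⁻¹ = a := by group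
          rw [e]
          exact ha
        · rw [map_mul, map_mul, map_inv, hag]
          group
    · rw [← map_pow, ← map_one π]
      congr 1
      apply Subtype.ext
      exact hnk
    · rw [← hτ, ← map_inv, ← map_mul]
      exact ⟨_, hσn, rfl⟩
    · refine ⟨π ⟨x₀, hAΓ hx₀⟩, ⟨⟨x₀, hAΓ hx₀⟩, hx₀, rfl⟩, ?_⟩
      intro h
      apply hx₀'
      rw [← map_pow, ← map_mul, ← map_mul] at h
      have h3 := hπ2 _ _ h
      have e : (((⟨n, hnΓ⟩ : Γ) * (⟨x₀, hAΓ hx₀⟩ : Γ) ^ p ^ (c - 1) : Γ) : T) *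
          (((⟨x₀, hAΓ hx₀⟩ : Γ) ^ p ^ (c - 1) * (⟨n, hnΓ⟩ : Γ) : Γ) : T)⁻¹ =
          n * x₀ ^ p ^ (c - 1) * n⁻¹ * (x₀ ^ p ^ (c - 1))⁻¹ := by
        rw [Subgroup.coe_mul, Subgroup.coe_mul, Subgroup.coe_pow, mul_inv_rev]
        simp only [mul_assoc]
      rwa [e] at h3
  obtain ⟨t', ht'⟩ := h2 (Γ ⧸ K) p c τ hp hp2 hc hgal
  obtain ⟨u, rfl⟩ := hπ t'
  refine ⟨u * t, fun b hb d hL => ht' b hb d ?_⟩
  have hΓ'' : ∀ x, x ∈ Γ ↔ (MulAut.conj (u : T) * σ') x ∈ Γ := by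
    intro x
    rw [hΓ x, MulAut.mul_apply, MulAut.conj_apply,
      Subgroup.mul_mem_cancel_right _ (Γ.inv_mem u.2), Subgroup.mul_mem_cancel_left _ u.2]
  have hL' : SL (tsh (MulAut.conj (u : T) * σ') (p ^ b)) d := by
    rw [hσ', ← mul_assoc, ← map_mul]
    exact hL
  refine h1 T (Γ ⧸ K) (MulAut.conj (u : T) * σ') (MulAut.conj (π u) * τ) Γ hΓ'' π hπ ?_ (p ^ b) d
    (pow_pos hp.pos b) hL'
  intro x
  change π (u * ⟨σ' x, (hΓ x).1 x.2⟩ * u⁻¹) = π u * τ (π x) * (π u)⁻¹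
  rw [map_mul, map_mul, map_inv, hτ]

end Pool.ENR
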