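import Pool.Agent.H29.ENR.Stmts5

/-!
# Board enr (MP_d15c96_al), row Q3A: automorphisms of 2-power order of `PSL(2,q)`, `q = 3 mod 8`
-/

set_option autoImplicit false

namespace Pool.ENR

open Pool.Agent.H81.ENG Pool.Agent.H55.NEU

namespace Q3Aaux

variable {F : Type} [Field F]

/-- the conjugate of an element of determinant one -/
theorem ex_conj (M : Matrix (Fin 2) (Fin 2) F) (hM : M.det ≠ 0) (X : SL2 F) :
    ∃ X' : SL2 F, (X' : Matrix (Fin 2) (Fin 2) F) * M = M * (X : Matrix (Fin 2) (Fin 2) F) := by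
  have hu : IsUnit M.det := isUnit_iff_ne_zero.2 hM
  refine ⟨⟨M * (X : Matrix (Fin 2) (Fin 2) F) * M⁻¹, ?_⟩, ?_⟩
  · rw [Matrix.det_mul, Matrix.det_mul, X.2, mul_one, ← Matrix.det_mul,
      Matrix.mul_nonsing_inv _ hu, Matrix.det_one]
  · change M * (X : Matrix (Fin 2) (Fin 2) F) * M⁻¹ * M = M * (X : Matrix (Fin 2) (Fin 2) F)
    rw [Matrix.nonsing_inv_mul_cancel_right _ _ hu]

theorem cm_smul {M : Matrix (Fin 2) (Fin 2) F} {σ : MulAut (PS F)} (r : F) (hr : r ≠ 0)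
    (h : CM F M σ) : CM F (r • M) σ := by
  intro X X' hX
  apply h
  rw [Matrix.mul_smul, Matrix.smul_mul] at hX
  exact smul_right_injective _ hr hX

theorem cm_mul {M M' : Matrix (Fin 2) (Fin 2) F} {σ τ : MulAut (PS F)} (hM' : M'.det ≠ 0)
    (h : CM F M σ) (h' : CM F M' τ) : CM F (M * M') (σ * τ) := by
  intro X X' hX
  obtain ⟨Y, hY⟩ := ex_conj M' hM' X
  have hu : IsUnit M'.det := isUnit_iff_ne_zero.2 hM'
  rw [MulAut.mul_apply, h' X Y hY]
  apply h
  have h1 : (X' : Matrix (Fin 2) (Fin 2) F) * M * M' = M * (Y : Matrix (Fin 2) (Fin 2) F) * M' := by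
    rw [mul_assoc, hX, mul_assoc, mul_assoc, hY]
  have h2 : (X' : Matrix (Fin 2) (Fin 2) F) * M * M' * M'⁻¹ =
      M * (Y : Matrix (Fin 2) (Fin 2) F) * M' * M'⁻¹ := by rw [h1]
  rwa [Matrix.mul_nonsing_inv_cancel_right _ _ hu, Matrix.mul_nonsing_inv_cancel_right _ _ hu]
    at h2

theorem cm_pow {M : Matrix (Fin 2) (Fin 2) F} {σ : MulAut (PS F)} (hM : M.det ≠ 0)
    (h : CM F M σ) (n : ℕ) : CM F (M ^ n) (σ ^ n) := by
  induction n with
  | zero =>
    intro X X' hX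
    rw [pow_zero, mul_one, one_mul] at hX
    rw [pow_zero]
    change pr X = pr X'
    rw [Subtype.ext hX.symm]
  | succ n ih =>
    rw [pow_succ, pow_succ]
    exact cm_mul hM ih h

theorem cm_scalar {σ : MulAut (PS F)} {M : Matrix (Fin 2) (Fin 2) F}
    (hs : ∃ x : F, M = x • (1 : Matrix (Fin 2) (Fin 2) F)) (h : CM F M σ) : σ = 1 := by
  obtain ⟨x, hx⟩ := hs
  ext g
  obtain ⟨X, rfl⟩ := pr_surj g
  change σ (pr X) = pr X
  apply h
  rw [hx, Matrix.mul_smul, Matrix.smul_mul, one_mul, mul_one]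

theorem scalar_of_cm {M : Matrix (Fin 2) (Fin 2) F} (hM : M.det ≠ 0)
    (h : CM F M (1 : MulAut (PS F))) : ∃ x : F, M = x • (1 : Matrix (Fin 2) (Fin 2) F) := by
  have key : ∀ X : SL2 F, ∃ r : F, ∀ i j,
      (M * (X : Matrix (Fin 2) (Fin 2) F)) i j = r * ((X : Matrix (Fin 2) (Fin 2) F) * M) i j := by
    intro X
    obtain ⟨X', hX'⟩ := ex_conj M hM X
    have h1 : pr X = pr X' := h X X' hX'
    obtain ⟨r, -, hr⟩ := pr_eq_iff.1 h1
    have h2 : (X' : Matrix (Fin 2) (Fin 2) F) = r • (X : Matrix (Fin 2) (Fin 2) F) := by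
      ext i j
      exact hr i j
    refine ⟨r, fun i j => ?_⟩
    rw [← hX', h2, Matrix.smul_mul]
    rfl
  rw [Matrix.det_fin_two] at hM
  obtain ⟨r, hr⟩ := key (uu 1)
  obtain ⟨s, hs⟩ := key (vv 1)
  have a00 := hr 0 0
  have a01 := hr 0 1
  have a10 := hr 1 0
  have b00 := hs 0 0
  have b01 := hs 0 1
  simp only [Matrix.mul_apply, Fin.sum_univ_two] at a00 a01 a10 b00 b01
  change M 0 0 * 1 + M 0 1 * 0 = r * (1 * M 0 0 + 1 * M 1 0) at a00
  change M 0 0 * 1 + M 0 1 * 1 = r * (1 * M 0 1 + 1 * M 1 1) at a01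
  change M 1 0 * 1 + M 1 1 * 0 = r * (0 * M 0 0 + 1 * M 1 0) at a10
  change M 0 0 * 1 + M 0 1 * 1 = s * (1 * M 0 0 + 0 * M 1 0) at b00
  change M 0 0 * 0 + M 0 1 * 1 = s * (1 * M 0 1 + 0 * M 1 1) at b01
  have c10 : M 1 0 = 0 := by
    by_contra hne
    have h1 : r = 1 := by
      have : (r - 1) * M 1 0 = 0 := by linear_combination -a10
      rcases mul_eq_zero.1 this with h | h
      · exact sub_eq_zero.1 h
      · exact absurd h hne
    rw [h1] at a00
    exact hne (by linear_combination -a00)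
  rw [c10] at a00 hM
  have c00 : M 0 0 ≠ 0 := by
    intro h0
    apply hM
    rw [h0]
    ring
  have hr1 : r = 1 := by
    have : (r - 1) * M 0 0 = 0 := by linear_combination -a00
    rcases mul_eq_zero.1 this with h | h
    · exact sub_eq_zero.1 h
    · exact absurd h c00
  rw [hr1] at a01
  have c01 : M 0 1 = 0 := by
    by_contra hne
    have h1 : s = 1 := by
      have : (s - 1) * M 0 1 = 0 := by linear_combination -b01
      rcases mul_eq_zero.1 this with h | h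
      · exact sub_eq_zero.1 h
      · exact absurd h hne
    rw [h1] at b00
    exact hne (by linear_combination b00)
  refine ⟨M 0 0, ?_⟩
  ext i j
  fin_cases i <;> fin_cases j
  · change M 0 0 = M 0 0 * 1
    ring
  · change M 0 1 = M 0 0 * 0
    rw [c01, mul_zero]
  · change M 1 0 = M 0 0 * 0
    rw [c10, mul_zero]
  · change M 1 1 = M 0 0 * 1
    linear_combination -a01

/-- Cayley-Hamilton -/
theorem ch (M : Matrix (Fin 2) (Fin 2) F) : M * M =
    (M 0 0 + M 1 1) • M - M.det • (1 : Matrix (Fin 2) (Fin 2) F) := by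
  rw [Matrix.det_fin_two]
  ext i j
  rw [Matrix.mul_apply, Fin.sum_univ_two]
  fin_cases i <;> fin_cases j
  · change M 0 0 * M 0 0 + M 0 1 * M 1 0 =
      (M 0 0 + M 1 1) * M 0 0 - (M 0 0 * M 1 1 - M 0 1 * M 1 0) * 1
    ring
  · change M 0 0 * M 0 1 + M 0 1 * M 1 1 =
      (M 0 0 + M 1 1) * M 0 1 - (M 0 0 * M 1 1 - M 0 1 * M 1 0) * 0
    ring
  · change M 1 0 * M 0 0 + M 1 1 * M 1 0 =
      (M 0 0 + M 1 1) * M 1 0 - (M 0 0 * M 1 1 - M 0 1 * M 1 0) * 0
    ring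
  · change M 1 0 * M 0 1 + M 1 1 * M 1 1 =
      (M 0 0 + M 1 1) * M 1 1 - (M 0 0 * M 1 1 - M 0 1 * M 1 0) * 1
    ring

/-- `M ^ 4` scalar, `M ^ 2` not: the trace `t` is not zero and `t ^ 2 = 2 det M` -/
theorem tr_sq (M : Matrix (Fin 2) (Fin 2) F)
    (h4 : ∃ x : F, M ^ 4 = x • (1 : Matrix (Fin 2) (Fin 2) F))
    (h2 : ¬ ∃ x : F, M ^ 2 = x • (1 : Matrix (Fin 2) (Fin 2) F)) :
    M 0 0 + M 1 1 ≠ 0 ∧ (M 0 0 + M 1 1) ^ 2 = 2 * M.det := by
  have hch := ch M
  obtain ⟨t, ht⟩ : ∃ t, t = M 0 0 + M 1 1 := ⟨_, rfl⟩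
  obtain ⟨D, hD⟩ : ∃ D, D = M.det := ⟨_, rfl⟩
  rw [← ht, ← hD] at hch ⊢
  have ht0 : t ≠ 0 := by
    intro h0
    apply h2
    refine ⟨-D, ?_⟩
    rw [pow_two, hch, h0, zero_smul, zero_sub, neg_smul]
  refine ⟨ht0, ?_⟩
  have hns : ¬ ∃ x : F, M = x • (1 : Matrix (Fin 2) (Fin 2) F) := by
    rintro ⟨x, hx⟩
    apply h2
    refine ⟨x * x, ?_⟩
    rw [pow_two, hx, Matrix.smul_mul, Matrix.mul_smul, mul_one, smul_smul]
  obtain ⟨x, hx⟩ := h4
  have h5 : M ^ 4 = (t ^ 3 - 2 * t * D) • M + (D ^ 2 - t ^ 2 * D) • (1 : Matrix (Fin 2) (Fin 2) F) := by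
    have e : M ^ 4 = (M * M) * (M * M) := by
      rw [show 4 = 2 + 2 from rfl, pow_add, pow_two]
    have e2 : ∀ a b : F, (a • M - b • (1 : Matrix (Fin 2) (Fin 2) F)) *
        (a • M - b • (1 : Matrix (Fin 2) (Fin 2) F)) =
        (a * a) • (M * M) - (2 * a * b) • M + (b * b) • (1 : Matrix (Fin 2) (Fin 2) F) := by
      intro a b
      simp only [sub_mul, mul_sub, Matrix.smul_mul, Matrix.mul_smul, mul_one, one_mul, smul_smul]
      module
    rw [e, hch, e2, hch]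
    module
  rw [hx] at h5
  have h6 : t ^ 3 - 2 * t * D = 0 := by
    by_contra hne
    apply hns
    refine ⟨(t ^ 3 - 2 * t * D)⁻¹ * (x - (D ^ 2 - t ^ 2 * D)), ?_⟩
    have h7 : (t ^ 3 - 2 * t * D) • M =
        (x - (D ^ 2 - t ^ 2 * D)) • (1 : Matrix (Fin 2) (Fin 2) F) := by
      rw [sub_smul x, h5]
      module
    rw [mul_smul, ← h7, smul_smul, inv_mul_cancel₀ hne, one_smul]
  have h8 : t * (t ^ 2 - 2 * D) = 0 := by linear_combination h6
  exact sub_eq_zero.1 ((mul_eq_zero.1 h8).resolve_left ht0)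

end Q3Aaux

open Q3Aaux in
theorem q3a_thm : Q3AStmt := by
  intro F _ _ hq σ N hσ
  classical
  haveI : Fintype F := Fintype.ofFinite F
  have hcard : Nat.card F = Fintype.card F := Nat.card_eq_fintype_card
  have hns2 : ¬ IsSquare (2 : F) := by
    rw [FiniteField.isSquare_two_iff, ← hcard, hq]
    simp
  have h20 : (2 : F) ≠ 0 := by
    intro h0
    exact hns2 (h0 ▸ ⟨0, by ring⟩)
  -- the characteristic
  obtain ⟨r, hr⟩ := CharP.exists F
  haveI hrp : Fact r.Prime := ⟨(CharP.char_is_prime_or_zero F r).resolve_right (by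
    intro h0
    subst h0
    haveI := CharP.charP_to_charZero F
    exact not_finite F)⟩
  have hr2 : r ≠ 2 := by
    intro h0
    subst h0
    exact h20 (CharTwo.two_eq_zero)
  -- no field part
  have hfld : fld σ = 1 := by
    have h1 : (fld σ) ^ (2 ^ N) = 1 := by rw [← map_pow, hσ, map_one]
    have h2 : orderOf (fld σ) ∣ 2 ^ N := orderOf_dvd_of_pow_eq_one h1
    obtain ⟨k, -, hk⟩ := (Nat.dvd_prime_pow Nat.prime_two).1 h2
    have h3 : Nat.card (Subgroup.zpowers (fld σ)) = 2 ^ k := by rw [Nat.card_zpowers, hk]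
    have h4 := two_part (f := 0) hr2 (Subgroup.zpowers (fld σ)) h3
    have h5 : k = 0 := by
      by_contra hk0
      obtain ⟨j, rfl⟩ := Nat.exists_eq_succ_of_ne_zero hk0
      have h6 : 16 ∣ Nat.card F ^ 2 - 1 :=
        (Dvd.intro (2 ^ j) (by rw [Nat.succ_eq_add_one]; ring)).trans h4
      obtain ⟨c, hc⟩ : ∃ c, Nat.card F = 8 * c + 3 := ⟨Nat.card F / 8, by omega⟩
      have h7 : Nat.card F ^ 2 - 1 = 16 * (4 * c ^ 2 + 3 * c) + 8 := by
        rw [hc]
        have : (8 * c + 3) ^ 2 = 16 * (4 * c ^ 2 + 3 * c) + 8 + 1 := by ring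
        rw [this, Nat.add_sub_cancel]
      rw [h7] at h6
      omega
    rw [h5, pow_zero] at hk
    exact orderOf_eq_one_iff.1 hk
  -- the matrix
  obtain ⟨M, hM0, hM⟩ : ∃ M : Matrix (Fin 2) (Fin 2) F, M.det ≠ 0 ∧ CM F M σ := by
    obtain ⟨g, c, hg⟩ := fld_spec σ
    rw [hfld] at hg
    obtain ⟨G, rfl⟩ := pr_surj g
    have hdet : (!![(c : F), 0; 0, 1] : Matrix (Fin 2) (Fin 2) F).det = c := by
      rw [Matrix.det_fin_two_of]; ring
    refine ⟨(G : Matrix (Fin 2) (Fin 2) F) * !![(c : F), 0; 0, 1], ?_, ?_⟩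
    · rw [Matrix.det_mul, G.2, one_mul, hdet]
      exact c.ne_zero
    · rw [hg]
      refine cm_mul (by rw [hdet]; exact c.ne_zero) ?_ ?_
      · intro X X' hX
        change pr G * pr X * (pr G)⁻¹ = pr X'
        have h1 : X' * G = G * X := Subtype.ext hX
        rw [← map_inv, ← map_mul, ← map_mul, ← h1, mul_inv_cancel_right]
      · intro X X' hX
        rw [ee_pr]
        congr 1
        have hcc : (c : F) * ((c⁻¹ : Fˣ) : F) = 1 := Units.mul_inv c
        have e00 := congrFun (congrFun hX 0) 0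
        have e01 := congrFun (congrFun hX 0) 1
        have e10 := congrFun (congrFun hX 1) 0
        have e11 := congrFun (congrFun hX 1) 1
        simp only [Matrix.mul_apply, Fin.sum_univ_two] at e00 e01 e10 e11
        change X' 0 0 * c + X' 0 1 * 0 = c * X 0 0 + 0 * X 1 0 at e00
        change X' 0 0 * 0 + X' 0 1 * 1 = c * X 0 1 + 0 * X 1 1 at e01
        change X' 1 0 * c + X' 1 1 * 0 = 0 * X 0 0 + 1 * X 1 0 at e10
        change X' 1 0 * 0 + X' 1 1 * 1 = 0 * X 0 1 + 1 * X 1 1 at e11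
        apply sl_ext
        · change X 0 0 = X' 0 0
          apply mul_left_cancel₀ c.ne_zero
          linear_combination -e00
        · change (c : F) * X 0 1 = X' 0 1
          linear_combination -e01
        · change ((c⁻¹ : Fˣ) : F) * X 1 0 = X' 1 0
          linear_combination (-((c⁻¹ : Fˣ) : F)) * e10 + X' 1 0 * hcc
        · change X 1 1 = X' 1 1
          linear_combination -e11
  have hpd : ∀ n, (M ^ n).det ≠ 0 := fun n => by rw [Matrix.det_pow]; exact pow_ne_zero _ hM0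
  -- the least `j` with `M ^ (2 ^ j)` scalar
  have hex : ∃ j : ℕ, ∃ x : F, M ^ (2 ^ j) = x • (1 : Matrix (Fin 2) (Fin 2) F) := by
    refine ⟨N, scalar_of_cm (hpd _) ?_⟩
    rw [← hσ]
    exact cm_pow hM0 hM _
  obtain ⟨j, hj, hmin⟩ : ∃ j : ℕ, (∃ x : F, M ^ (2 ^ j) = x • (1 : Matrix (Fin 2) (Fin 2) F)) ∧
      ∀ i < j, ¬ ∃ x : F, M ^ (2 ^ i) = x • (1 : Matrix (Fin 2) (Fin 2) F) :=
    ⟨Nat.find hex, Nat.find_spec hex, fun i hi => Nat.find_min hex hi⟩
  rcases Nat.lt_or_ge j 2 with hj2 | hj2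
  · left
    have h1 : ∃ x : F, M ^ 2 = x • (1 : Matrix (Fin 2) (Fin 2) F) := by
      obtain ⟨x, hx⟩ := hj
      interval_cases j
      · rw [pow_zero, pow_one] at hx
        exact ⟨x * x, by rw [pow_two, hx, Matrix.smul_mul, Matrix.mul_smul, mul_one, smul_smul]⟩
      · exact ⟨x, by rw [← hx, pow_one]⟩
    exact cm_scalar h1 (cm_pow hM0 hM 2)
  · have hj3 : j = 2 := by
      by_contra hne
      obtain ⟨i, rfl⟩ : ∃ i, j = i + 3 := ⟨j - 3, by omega⟩
      have h1 := tr_sq (M ^ (2 ^ (i + 1))) (by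
        rw [← pow_mul, show 2 ^ (i + 1) * 4 = 2 ^ (i + 3) by ring]
        exact hj) (by
        rw [← pow_mul, show 2 ^ (i + 1) * 2 = 2 ^ (i + 2) by ring]
        exact hmin _ (by omega))
      obtain ⟨h2, h3⟩ := h1
      apply hns2
      have h4 : (M ^ 2 ^ (i + 1)).det = M.det ^ (2 ^ i) * M.det ^ (2 ^ i) := by
        rw [Matrix.det_pow, ← pow_add]
        congr 1
        ring
      obtain ⟨t, ht⟩ : ∃ t, t = (M ^ 2 ^ (i + 1)) 0 0 + (M ^ 2 ^ (i + 1)) 1 1 := ⟨_, rfl⟩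
      obtain ⟨D, hD⟩ : ∃ D, D = M.det ^ (2 ^ i) := ⟨_, rfl⟩
      rw [h4, ← ht, ← hD] at h3
      have hD0 : D ≠ 0 := by rw [hD]; exact pow_ne_zero _ hM0
      refine ⟨t / D, ?_⟩
      field_simp
      linear_combination -h3
    subst hj3
    obtain ⟨ht0, ht2⟩ := tr_sq M hj (hmin 1 (by norm_num))
    have hch := ch M
    obtain ⟨t, ht⟩ : ∃ t, t = M 0 0 + M 1 1 := ⟨_, rfl⟩
    rw [← ht] at ht0 ht2 hch
    right
    refine ⟨cm_scalar hj (cm_pow hM0 hM 4), (2 / t) • M - 1, ?_, ?_, ?_⟩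
    · have e2 : ((2 / t) • M - (1 : Matrix (Fin 2) (Fin 2) F)) *
          ((2 / t) • M - (1 : Matrix (Fin 2) (Fin 2) F)) =
          ((2 / t) * (2 / t)) • (M * M) - (2 * (2 / t)) • M + (1 : Matrix (Fin 2) (Fin 2) F) := by
        simp only [sub_mul, mul_sub, Matrix.smul_mul, Matrix.mul_smul, mul_one, one_mul, smul_smul]
        module
      rw [e2, hch]
      have e3 : (2 / t * (2 / t)) • (t • M - M.det • (1 : Matrix (Fin 2) (Fin 2) F)) -
          (2 * (2 / t)) • M + 1 = (2 / t * (2 / t) * t - 2 * (2 / t)) • M +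
          (1 - 2 / t * (2 / t) * M.det) • (1 : Matrix (Fin 2) (Fin 2) F) := by module
      have e4 : 2 / t * (2 / t) * t - 2 * (2 / t) = 0 := by field_simp; ring
      have e5 : 1 - 2 / t * (2 / t) * M.det = -1 := by
        field_simp
        linear_combination 2 * ht2
      rw [e3, e4, e5, zero_smul, zero_add, neg_smul, one_smul]
    · intro x hx
      apply hmin 0 (by norm_num)
      refine ⟨t / 2 * (x + 1), ?_⟩
      rw [pow_zero, pow_one]
      have h1 : (2 / t) • M = (x + 1) • (1 : Matrix (Fin 2) (Fin 2) F) := by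
        rw [add_smul, one_smul, ← hx]
        abel
      have h2 := congrArg (fun A => (t / 2) • A) h1
      simp only [smul_smul] at h2
      have h3 : t / 2 * (2 / t) = 1 := by field_simp
      rwa [h3, one_smul] at h2
    · have h1 : (1 : Matrix (Fin 2) (Fin 2) F) + ((2 / t) • M - 1) = (2 / t) • M := by abel
      rw [h1]
      exact cm_smul _ (div_ne_zero h20 ht0) hM

end Pool.ENR
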