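import Pool.Agent.H29.ENR.Stmts11
import Pool.Agent.H1.ENR.CP6

/-!
# Board enr, row SQC (after helper1's row CP6)
-/

set_option autoImplicit false
set_option linter.style.haveILetI false

namespace Pool.ENR

open Pool.Agent.H81.ENG

private theorem SQC_iso {T T' : Type} [Group T] [Group T'] {p : ℕ} (e : T ≃* T')
    (hg : Sq p T) : Sq p T' := by
  intro σ N m hN hm
  have h1 : CP3.pb e σ ^ (p ^ N) = 1 := by
    ext t
    apply e.injective
    rw [CP3.pb_pow, hN]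
    rfl
  have h2 : CP3.pb e σ ^ (p ^ m) ≠ 1 := by
    intro h
    apply hm
    ext t
    have h3 := CP3.pb_pow e σ (p ^ m) (e.symm t)
    rw [h, MulEquiv.apply_symm_apply] at h3
    rw [← h3]
    simp
  rcases hg (CP3.pb e σ) N m h1 h2 with hlaw | ⟨hlaw, t, hw⟩
  · exact Or.inl fun d hd => hlaw d (CP6.glaw_as e σ hd)
  · right
    have hpb : CP3.pb e (MulAut.conj (e t) * σ) = MulAut.conj t * CP3.pb e σ := by
      ext x
      apply e.injective
      rw [CP3.e_pb, MulAut.mul_apply, MulAut.mul_apply, MulAut.conj_apply, MulAut.conj_apply,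
        map_mul, map_mul, map_inv, CP3.e_pb]
    refine ⟨fun d hd => hlaw d (CP6.glaw_as e σ hd), e t, fun b hb d hd => ?_⟩
    have h3 := CP3.sl e (MulAut.conj (e t) * σ) _ hd
    rw [hpb] at h3
    exact hw b hb d h3

theorem sqc_thm (hPRD : PRDStmt) (hCHG : CHGStmt) (hPB3 : PB3Stmt) : SQCStmt := by
  intro p T _ _ hp hgood G _ _ S e y N d v hy hSs hSn hD hL hv
  classical
  set K := Subgroup.normalizer (S : Set G) with hK
  have hKmem : ∀ g, g ∈ K ↔ ∀ t, t ∈ S ↔ g * t * g⁻¹ ∈ S := fun g => Subgroup.mem_normalizer_iff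
  have hex : ∃ b, y ^ (p ^ b) ∈ K := ⟨N, by rw [hy]; exact K.one_mem⟩
  obtain ⟨b, hbK, hbmin⟩ : ∃ b, y ^ (p ^ b) ∈ K ∧ ∀ e < b, y ^ (p ^ e) ∉ K :=
    ⟨Nat.find hex, Nat.find_spec hex, fun e he => Nat.find_min hex he⟩
  obtain ⟨k, hk⟩ : ∃ k, k = p ^ b := ⟨_, rfl⟩
  rw [← hk] at hbK
  have hk0 : 0 < k := by rw [hk]; exact pow_pos hp.pos b
  have hnot : ∀ i, 0 < i → i < k → y ^ i ∉ K := by
    intro i hi hik hmem
    have hg : y ^ (Nat.gcd i (p ^ N)) ∈ K := by
      have h1 : (y ^ (Nat.gcd i (p ^ N)) : G) = (y ^ i) ^ (Nat.gcdA i (p ^ N)) *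
          (y ^ (p ^ N)) ^ (Nat.gcdB i (p ^ N)) := by
        rw [← zpow_natCast, Nat.gcd_eq_gcd_ab, zpow_add, zpow_mul, zpow_mul, zpow_natCast,
          zpow_natCast]
      rw [h1, hy, one_zpow, mul_one]
      exact K.zpow_mem hmem _
    obtain ⟨e, -, he⟩ := (Nat.dvd_prime_pow hp).mp (Nat.gcd_dvd_right i (p ^ N))
    rw [he] at hg
    have h2 : p ^ e ∣ i := he ▸ Nat.gcd_dvd_left i (p ^ N)
    have h3 : p ^ e < p ^ b := by
      rw [← hk]
      exact lt_of_le_of_lt (Nat.le_of_dvd hi h2) hik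
    have h4 : e < b := (Nat.pow_lt_pow_iff_right hp.one_lt).mp h3
    exact hbmin e h4 hg
  have hkK := (hKmem _).1 hbK
  have hnotK : ∀ i, 0 < i → i < k → ¬ ∀ x, x ∈ S ↔ y ^ i * x * (y ^ i)⁻¹ ∈ S := by
    intro i hi hik h
    exact hnot i hi hik ((hKmem _).2 h)
  have hcenS : ¬ ∀ a c : S, a * c = c * a := by
    intro h
    apply hSn
    intro a ha c hc
    exact congrArg Subtype.val (h ⟨a, ha⟩ ⟨c, hc⟩)
  have hcen : ∀ t ∈ S, (∀ s ∈ S, s * t = t * s) → t = 1 := by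
    intro t ht hs
    have h1 : (⟨t, ht⟩ : S) ∈ Subgroup.center S := by
      rw [Subgroup.mem_center_iff]
      intro g
      exact Subtype.ext (hs g g.2)
    rcases hSs.eq_bot_or_eq_top_of_normal (Subgroup.center S) inferInstance with h2 | h2
    · rw [h2, Subgroup.mem_bot] at h1
      exact congrArg Subtype.val h1
    · exfalso
      apply hSn
      intro a ha b hb
      have h3 : (⟨b, hb⟩ : S) ∈ Subgroup.center S := by rw [h2]; exact Subgroup.mem_top _
      rw [Subgroup.mem_center_iff] at h3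
      exact congrArg Subtype.val (h3 ⟨a, ha⟩)
  -- the automorphism
  have hres : ∀ t, t ∈ S ↔ MulAut.conj (y ^ k)⁻¹ t ∈ S := by
    intro t
    rw [MulAut.conj_apply]
    have h1 := K.inv_mem hbK
    rw [hKmem] at h1
    exact h1 t
  obtain ⟨α, hαdef⟩ : ∃ α : MulAut S, α = restr (MulAut.conj (y ^ k)⁻¹) S hres := ⟨_, rfl⟩
  have hα : ∀ t : S, ((α t : S) : G) = (y ^ k)⁻¹ * t * y ^ k := by
    intro t
    rw [hαdef]
    show MulAut.conj (y ^ k)⁻¹ (t : G) = _
    rw [MulAut.conj_apply, inv_inv]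
  have hαm : ∀ (m : ℕ) (t : S), (((α ^ m) t : S) : G) = ((y ^ k) ^ m)⁻¹ * t * (y ^ k) ^ m := by
    intro m t
    rw [hαdef, restr_pow_apply, ← map_pow, MulAut.conj_apply, inv_pow, inv_inv]
  have hαN : α ^ (p ^ N) = 1 := by
    ext t
    rw [hαm, ← pow_mul, mul_comm k, pow_mul, hy, one_pow]
    simp
  have hAS : GLaw (ASg α) d := by
    have h1 : GLaw K d := glaw_subgroup hL K
    have h2 : GLaw (Subgroup.normalizerMonoidHom S).range d :=
      CP6.of_surj (Subgroup.normalizerMonoidHom S).rangeRestrict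
        (Subgroup.normalizerMonoidHom S).rangeRestrict_surjective h1
    have h3 : ASg α ≤ (Subgroup.normalizerMonoidHom S).range := by
      unfold ASg
      rw [Subgroup.closure_le]
      rintro φ (⟨t, rfl⟩ | hφ)
      · refine ⟨⟨(t : G), Subgroup.le_normalizer t.2⟩, ?_⟩
        ext x
        rfl
      · rw [Set.mem_singleton_iff] at hφ
        subst hφ
        refine ⟨⟨(y ^ k)⁻¹, K.inv_mem hbK⟩, ?_⟩
        ext x
        rw [hα x]
        show (y ^ k)⁻¹ * (x : G) * (y ^ k)⁻¹⁻¹ = _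
        rw [inv_inv]
    exact CP6.of_inj (Subgroup.inclusion h3) (Subgroup.inclusion_injective h3) h2
  have hbv : b ≤ v := by
    have h1 := hPB3 G p N v d S y hp hy hSs hSn hD hL hv
    have h2 : y ^ (p ^ v) ∈ K := (hKmem _).2 h1
    by_contra hcon
    exact hbmin v (not_le.1 hcon) h2
  have hexc : ∃ c, α ^ (p ^ c) = 1 := ⟨N, hαN⟩
  obtain ⟨c0, hc1, hc2⟩ : ∃ c, α ^ (p ^ c) = 1 ∧ ∀ e < c, α ^ (p ^ e) ≠ 1 :=
    ⟨Nat.find hexc, Nat.find_spec hexc, fun e he => Nat.find_min hexc he⟩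
  have hle : ∀ j : ℕ, p ^ j ∣ ed d → j ≤ v := by
    intro j hj
    by_contra hcon
    exact hv (dvd_trans (pow_dvd_pow p (by omega)) hj)
  have hbc : b + c0 ≤ 2 * v := by
    rcases Nat.eq_zero_or_pos c0 with h0 | h0
    · omega
    · obtain ⟨m, rfl⟩ : ∃ m, c0 = m + 1 := ⟨c0 - 1, by omega⟩
      have hne : α ^ (p ^ m) ≠ 1 := hc2 m (by omega)
      have hgS : Sq p S := SQC_iso e.symm hgood
      rcases hgS α N m hαN hne with hlaw | ⟨hlaw, t, hw⟩
      · have h1 := hle _ (hlaw d hAS)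
        omega
      · obtain ⟨h1, h2⟩ := hlaw d hAS
        have h3 := hle _ h1
        have h4 := hle 1 (by rwa [pow_one])
        rcases Nat.eq_zero_or_pos b with hb0 | hb0
        · omega
        · have ht' : ((t : G))⁻¹ ∈ S := S.inv_mem t.2
          obtain ⟨g1, g2, g3⟩ := hCHG G y (t : G)⁻¹ S k hk0 hD ht' hkK hnotK
          have hSL' : SL (tsh (MulAut.conj t * α) k) d := by
            refine hPRD G (y * (t : G)⁻¹) S k hk0 hD hcen g1 g2 (MulAut.conj t * α) ?_ d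
              (hL.sl _)
            intro x
            rw [g3 x x.2, MulAut.mul_apply, MulAut.conj_apply, ← hα x, inv_inv]
            rfl
          have h5 := hle _ (hw b hb0 d (by rw [← hk]; exact hSL'))
          omega
  have hyv : y ^ (p ^ (2 * v)) = (y ^ k) ^ (p ^ (2 * v - b)) := by
    rw [← pow_mul, hk, ← pow_add]
    congr 2
    omega
  have hαv : α ^ (p ^ (2 * v - b)) = 1 := by
    obtain ⟨f, hf⟩ := Nat.exists_eq_add_of_le (show c0 ≤ 2 * v - b by omega)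
    rw [hf, pow_add, pow_mul, hc1, one_pow]
  intro t ht
  have h1 := hαm (p ^ (2 * v - b)) ⟨t, ht⟩
  rw [hαv, ← hyv] at h1
  have h2 : t = (y ^ (p ^ (2 * v)))⁻¹ * t * y ^ (p ^ (2 * v)) := h1
  calc y ^ (p ^ (2 * v)) * t =
        y ^ (p ^ (2 * v)) * ((y ^ (p ^ (2 * v)))⁻¹ * t * y ^ (p ^ (2 * v))) := by rw [← h2]
    _ = t * y ^ (p ^ (2 * v)) := by group

end Pool.ENR
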